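import Pool.Agent.Lib.P89d91e.Final

open Set Filter Topology
open scoped ContDiff Manifold
open Pool.Agent.Lib.P89d91e

namespace Pool.Agent.Results.MP_89d91e_gt.InfinitelyManyLagrangianSpheres

/-- There is a closed (compact, Hausdorff, second countable, connected, without boundary)
symplectic manifold of real dimension `6` containing an infinite sequence of pairwise disjoint
Lagrangian spheres `S³`.

The manifold is the resolution of a quotient of an infranil orbifold. Take
`ℂ × ℂ × ℝ × ℝ ∋ (p, q, c, s)` with the symplectic form `Re (dp ∧ dq) + dc ∧ ds`, divide it by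
the group of maps `(p, q, c, s) ↦ (ε p + 2 (n + i j), ε q + 2 λ - 2 j c, c + 2 k,
s + 2 l - 2 j ε Re p)`, `ε = ±1`, `λ ∈ ℤ + ℤ (i - √2)`, and replace each singular point `ℂ²/±1` of
the transverse slices by the cotangent resolution, which carries a holomorphic symplectic form
extending `dp ∧ dq`. The `m`-th sphere lies over `c = - m √2`; it is the union of two solid tori
glued along the torus of the arguments, its middle part being
`p = θ + i w, q = i m χ(w)`, with `w ∈ [0, 1]` and `θ, s ∈ ℝ / 2 ℤ`. -/
theorem result :
    ∃ (X : Type) (_ : TopologicalSpace X) (_ : ChartedSpace (EuclideanSpace ℝ (Fin 6)) X)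
      (Ω : TwoForm (EuclideanSpace ℝ (Fin 6)) X) (L : ℕ → Set X),
      IsManifold (𝓡 6) ∞ X ∧ T2Space X ∧ SecondCountableTopology X ∧ CompactSpace X ∧
      ConnectedSpace X ∧ IsSymplecticForm Ω ∧ (∀ m, IsLagrangianSphere Ω 3 (L m)) ∧
      ∀ m k, m ≠ k → Disjoint (L m) (L k) :=
  final

end Pool.Agent.Results.MP_89d91e_gt.InfinitelyManyLagrangianSpheres
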